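import Mathlib

/-!
# A flat manifold with `b₁ = 0` all of whose complex structures have infinite automorphism group

The ambient Euclidean space has dimension `24`: six copies of the hyperplane `∑ x_k = 0` of `ℝ⁵`
(that is `ℤ[ζ₅] ⊗ ℝ`). The holonomy group is `(ℤ/5)²`, acting on the six copies through its six
characters up to scalars, and the fundamental group has suitable translation parts in `(1/5)ℤ`.
-/

namespace Pool.Agent.Results.MP_bb2d27_ag.InfiniteAut

section defs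

variable {E : Type} [NormedAddCommGroup E] [InnerProductSpace ℝ E]

/-- A Bieberbach group: a discrete, cocompact, torsion-free group of isometries of the Euclidean
space `E`. -/
structure IsBieberbach (Γ : Subgroup (E ≃ᵃⁱ[ℝ] E)) : Prop where
  discrete : ∀ R : ℝ, {γ | γ ∈ Γ ∧ ‖γ 0‖ ≤ R}.Finite
  cocompact : ∃ K : Set E, IsCompact K ∧ ∀ x, ∃ γ ∈ Γ, γ x ∈ K
  torsionFree : ∀ γ ∈ Γ, ∀ n : ℕ, 0 < n → γ ^ n = 1 → γ = 1

/-- The orbit equivalence relation. -/
def orbitSetoid (Γ : Subgroup (E ≃ᵃⁱ[ℝ] E)) : Setoid E where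
  r x y := ∃ γ ∈ Γ, γ x = y
  iseqv :=
    { refl := fun x => ⟨1, Γ.one_mem, rfl⟩
      symm := fun {x y} ⟨γ, hγ, h⟩ => ⟨γ⁻¹, Γ.inv_mem hγ, by
        rw [← h]; exact γ.symm_apply_apply x⟩
      trans := fun {x y z} ⟨γ, hγ, h⟩ ⟨δ, hδ, h'⟩ => ⟨δ * γ, Γ.mul_mem hδ hγ, by
        rw [← h', ← h]; rfl⟩ }

/-- The points of the flat manifold `M = E / Γ`. -/
def Manifold (Γ : Subgroup (E ≃ᵃⁱ[ℝ] E)) : Type := Quotient (orbitSetoid Γ)

/-- The projection `E → M`. -/
def proj (Γ : Subgroup (E ≃ᵃⁱ[ℝ] E)) (x : E) : Manifold Γ := Quotient.mk (orbitSetoid Γ) x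

/-- `b₁(M) = 0`, that is `H¹(M; ℝ) = Hom(Γ, ℝ) = 0`. -/
def BettiOneZero (Γ : Subgroup (E ≃ᵃⁱ[ℝ] E)) : Prop := ∀ f : Γ →* Multiplicative ℝ, f = 1

/-- `J` is a complex structure on `M = E / Γ`: `J² = -1` and `J` commutes with the holonomy group. -/
structure IsComplexStructure (Γ : Subgroup (E ≃ᵃⁱ[ℝ] E)) (J : E →ₗ[ℝ] E) : Prop where
  sq : ∀ v, J (J v) = -v
  comm : ∀ γ ∈ Γ, ∀ v, J (γ.linearIsometryEquiv v) = γ.linearIsometryEquiv (J v)

/-- `Aut(M, J)`: the bijections of `M` which lift to an affine bijection of `E` whose linear part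
commutes with `J`. -/
def Aut (Γ : Subgroup (E ≃ᵃⁱ[ℝ] E)) (J : E →ₗ[ℝ] E) : Set (Equiv.Perm (Manifold Γ)) :=
  {f | ∃ F : E ≃ᵃ[ℝ] E, (∀ x, f (proj Γ x) = proj Γ (F x)) ∧ ∀ v, F.linear (J v) = J (F.linear v)}

end defs

/-- The index set: six copies of `ZMod 5`. -/
abbrev I := Option (ZMod 5) × ZMod 5

/-- The Euclidean space: functions with sum zero on each copy of `ZMod 5`. -/
def E0 : Submodule ℝ (EuclideanSpace ℝ I) where
  carrier := {x | ∀ i, ∑ k : ZMod 5, x (i, k) = 0}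
  zero_mem' := fun i => by simp
  add_mem' := fun {x y} hx hy i => by
    simp only [PiLp.add_apply, Finset.sum_add_distrib]
    rw [hx i, hy i, add_zero]
  smul_mem' := fun c x hx i => by
    simp only [PiLp.smul_apply, smul_eq_mul, ← Finset.mul_sum]
    rw [hx i, mul_zero]

/-- The Euclidean space. -/
abbrev E := E0

/-- The coordinate function. -/
def co (x : E) (i : Option (ZMod 5)) (k : ZMod 5) : ℝ := x.1 (i, k)

lemma co_sum (x : E) (i : Option (ZMod 5)) : ∑ k, co x i k = 0 := x.2 i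

lemma co_ext {x y : E} (h : ∀ i k, co x i k = co y i k) : x = y := by
  apply Subtype.ext
  ext ⟨i, k⟩
  exact h i k

@[simp] lemma co_add (x y : E) (i : Option (ZMod 5)) (k : ZMod 5) :
    co (x + y) i k = co x i k + co y i k := rfl
@[simp] lemma co_sub (x y : E) (i : Option (ZMod 5)) (k : ZMod 5) :
    co (x - y) i k = co x i k - co y i k := rfl
@[simp] lemma co_neg (x : E) (i : Option (ZMod 5)) (k : ZMod 5) : co (-x) i k = -co x i k := rfl
@[simp] lemma co_zero (i : Option (ZMod 5)) (k : ZMod 5) : co 0 i k = 0 := rfl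
@[simp] lemma co_smul (c : ℝ) (x : E) (i : Option (ZMod 5)) (k : ZMod 5) :
    co (c • x) i k = c * co x i k := rfl

/-- Build an element from coordinates. -/
def mk (f : Option (ZMod 5) → ZMod 5 → ℝ) (hf : ∀ i, ∑ k, f i k = 0) : E :=
  ⟨WithLp.toLp 2 fun p => f p.1 p.2, fun i => hf i⟩

@[simp] lemma co_mk (f : Option (ZMod 5) → ZMod 5 → ℝ) (hf : ∀ i, ∑ k, f i k = 0)
    (i : Option (ZMod 5)) (k : ZMod 5) : co (mk f hf) i k = f i k := rfl

lemma norm_sq (x : E) : ‖x‖ ^ 2 = ∑ i, ∑ k, co x i k ^ 2 := by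
  have h : ‖x‖ = ‖x.1‖ := rfl
  rw [h, EuclideanSpace.norm_sq_eq, Fintype.sum_prod_type]
  simp only [Real.norm_eq_abs, sq_abs]
  rfl

lemma abs_co_le (x : E) (i : Option (ZMod 5)) (k : ZMod 5) : |co x i k| ≤ ‖x‖ := by
  have h : ‖x.1 (i, k)‖ ≤ ‖x.1‖ := PiLp.norm_apply_le x.1 (i, k)
  exact h

/-- The shift operator: `(sh d x)(i, k) = x(i, k - d i)`. -/
def sh (d : Option (ZMod 5) → ZMod 5) : E →ₗ[ℝ] E where
  toFun x := mk (fun i k => co x i (k - d i)) fun i => by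
    rw [← co_sum x i]
    exact Fintype.sum_equiv (Equiv.subRight (d i)) _ _ fun k => rfl
  map_add' x y := co_ext fun i k => rfl
  map_smul' c x := co_ext fun i k => rfl

@[simp] lemma co_sh (d : Option (ZMod 5) → ZMod 5) (x : E) (i : Option (ZMod 5)) (k : ZMod 5) :
    co (sh d x) i k = co x i (k - d i) := rfl

lemma sh_sh (d e : Option (ZMod 5) → ZMod 5) (x : E) : sh d (sh e x) = sh (d + e) x := by
  apply co_ext
  intro i k
  simp only [co_sh, Pi.add_apply]
  rw [sub_sub]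

lemma sh_zero (x : E) : sh 0 x = x := by
  apply co_ext
  intro i k
  simp

lemma norm_sh (d : Option (ZMod 5) → ZMod 5) (x : E) : ‖sh d x‖ = ‖x‖ := by
  rw [← sq_eq_sq₀ (norm_nonneg _) (norm_nonneg _), norm_sq, norm_sq]
  refine Finset.sum_congr rfl fun i _ => ?_
  exact Fintype.sum_equiv (Equiv.subRight (d i)) _ _ fun k => rfl

/-- The shift operator as a linear isometry equivalence. -/
noncomputable def shE (d : Option (ZMod 5) → ZMod 5) : E ≃ₗᵢ[ℝ] E where
  toLinearEquiv := LinearEquiv.ofLinearMap (sh d) (sh (-d))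
    (by ext1 x; simp [sh_sh, sh_zero]) (by ext1 x; simp [sh_sh, sh_zero])
  norm_map' x := norm_sh d x

lemma shE_apply (d : Option (ZMod 5) → ZMod 5) (x : E) : shE d x = sh d x := rfl

/-- The group `(ℤ/5)²`. -/
abbrev G := ZMod 5 × ZMod 5

/-- The six characters (one for each line). -/
def chi (g : G) : Option (ZMod 5) → ZMod 5
  | none => g.2
  | some t => g.1 + t * g.2

/-- Functionals which are nonzero on the kernels of the characters. -/
def psi (g : G) : Option (ZMod 5) → ZMod 5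
  | none => g.1
  | some _ => g.2

lemma chi_add (g h : G) : chi (g + h) = chi g + chi h := by
  funext i
  cases i with
  | none => rfl
  | some t => simp only [chi, Pi.add_apply, Prod.fst_add, Prod.snd_add]; ring

lemma psi_add (g h : G) : psi (g + h) = psi g + psi h := by
  funext i
  cases i with
  | none => rfl
  | some t => rfl

lemma chi_zero : chi 0 = 0 := by
  funext i
  cases i with
  | none => rfl
  | some t => simp [chi]

lemma psi_zero : psi 0 = 0 := by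
  funext i
  cases i with
  | none => rfl
  | some t => rfl

lemma chi_neg (g : G) : chi (-g) = -chi g := by
  have := chi_add g (-g)
  rw [add_neg_cancel, chi_zero] at this
  exact (neg_eq_of_add_eq_zero_right this.symm).symm

lemma psi_neg (g : G) : psi (-g) = -psi g := by
  have := psi_add g (-g)
  rw [add_neg_cancel, psi_zero] at this
  exact (neg_eq_of_add_eq_zero_right this.symm).symm

lemma exists_line (g : G) (hg : g ≠ 0) : ∃ i, chi g i = 0 ∧ psi g i ≠ 0 := by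
  revert g
  decide

/-- The translation part `v` is congruent to `psi g / 5` modulo `ℤ`. -/
def Cong (g : G) (v : E) : Prop :=
  ∀ i k, ((co v i k : ℝ) : UnitAddCircle) = ZMod.toAddCircle (psi g i)

/-- `γ` is the isometry `x ↦ ρ(g) x + v` with admissible `v`. -/
def Mem (g : G) (v : E) (γ : E ≃ᵃⁱ[ℝ] E) : Prop := Cong g v ∧ ∀ x, γ x = sh (chi g) x + v

lemma mem_one : Mem 0 0 1 := by
  refine ⟨fun i k => by simp [psi_zero], fun x => ?_⟩
  rw [chi_zero, sh_zero, add_zero]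
  rfl

lemma mem_mul {g h : G} {v w : E} {γ δ : E ≃ᵃⁱ[ℝ] E} (h1 : Mem g v γ) (h2 : Mem h w δ) :
    Mem (g + h) (sh (chi g) w + v) (γ * δ) := by
  refine ⟨fun i k => ?_, fun x => ?_⟩
  · rw [co_add, co_sh, AddCircle.coe_add, h1.1, h2.1, psi_add, Pi.add_apply, map_add, add_comm]
  · show γ (δ x) = _
    rw [h2.2, h1.2, map_add, sh_sh, chi_add, add_assoc]

lemma mem_inv {g : G} {v : E} {γ : E ≃ᵃⁱ[ℝ] E} (h1 : Mem g v γ) :
    Mem (-g) (-(sh (-chi g) v)) γ⁻¹ := by
  refine ⟨fun i k => ?_, fun x => ?_⟩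
  · rw [co_neg, co_sh, AddCircle.coe_neg, h1.1, psi_neg, Pi.neg_apply, map_neg]
  · apply γ.injective
    have : γ (γ⁻¹ x) = x := γ.apply_symm_apply x
    rw [this, h1.2, chi_neg, map_add, map_neg, sh_sh, sh_sh, add_neg_cancel, sh_zero, sh_zero]
    abel

/-- The Bieberbach group. -/
def Gam : Subgroup (E ≃ᵃⁱ[ℝ] E) where
  carrier := {γ | ∃ g v, Mem g v γ}
  one_mem' := ⟨0, 0, mem_one⟩
  mul_mem' := fun ⟨_, _, h1⟩ ⟨_, _, h2⟩ => ⟨_, _, mem_mul h1 h2⟩
  inv_mem' := fun ⟨_, _, h1⟩ => ⟨_, _, mem_inv h1⟩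

/-- The isometry `x ↦ ρ(g) x + v`. -/
noncomputable def iso (g : G) (v : E) : E ≃ᵃⁱ[ℝ] E :=
  AffineIsometryEquiv.constVAdd ℝ E v * (shE (chi g)).toAffineIsometryEquiv

lemma iso_apply (g : G) (v x : E) : iso g v x = sh (chi g) x + v := by
  show v + sh (chi g) x = _
  rw [add_comm]

lemma iso_mem {g : G} {v : E} (h : Cong g v) : Mem g v (iso g v) := ⟨h, iso_apply g v⟩

lemma eq_iso {g : G} {v : E} {γ : E ≃ᵃⁱ[ℝ] E} (h : Mem g v γ) : γ = iso g v := by
  ext1 x
  rw [h.2, iso_apply]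


lemma five_co {g : G} {v : E} (h : Cong g v) (i : Option (ZMod 5)) (k : ZMod 5) :
    ∃ n : ℤ, 5 * co v i k = n := by
  have h1 : ((5 * co v i k : ℝ) : UnitAddCircle) = 0 := by
    have h2 : ((5 * co v i k : ℝ) : UnitAddCircle) = 5 • ((co v i k : ℝ) : UnitAddCircle) := by
      rw [← AddCircle.coe_nsmul]
      simp
    have h3 : (5 : ℕ) • psi g i = 0 := by
      rw [nsmul_eq_mul]
      have : ((5 : ℕ) : ZMod 5) = 0 := ZMod.natCast_self 5
      rw [this, zero_mul]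
    rw [h2, h, ← map_nsmul, h3, map_zero]
  rw [AddCircle.coe_eq_zero_iff] at h1
  obtain ⟨n, hn⟩ := h1
  exact ⟨n, by simpa using hn.symm⟩

lemma discrete (R : ℝ) : {γ | γ ∈ Gam ∧ ‖γ 0‖ ≤ R}.Finite := by
  have hS : {v : E | ‖v‖ ≤ R ∧ ∀ i k, ∃ n : ℤ, 5 * co v i k = n}.Finite := by
    let f : E → (Option (ZMod 5) → ZMod 5 → ℤ) := fun v i k => ⌊5 * co v i k⌋
    refine Set.Finite.of_finite_image (f := f) ?_ ?_
    · have hT : (Set.pi Set.univ fun _ : Option (ZMod 5) => Set.pi Set.univ fun _ : ZMod 5 =>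
          Set.Icc (-⌈5 * R⌉) ⌈5 * R⌉).Finite :=
        Set.Finite.pi fun _ => Set.Finite.pi fun _ => Set.finite_Icc _ _
      refine hT.subset ?_
      rintro _ ⟨v, ⟨hv, hn⟩, rfl⟩ i _ k _
      obtain ⟨n, hn⟩ := hn i k
      have h1 := (abs_co_le v i k).trans hv
      rw [abs_le] at h1
      have h2 : f v i k = n := by
        show ⌊5 * co v i k⌋ = n
        rw [hn, Int.floor_intCast]
      show f v i k ∈ Set.Icc (-⌈5 * R⌉) ⌈5 * R⌉
      rw [h2, Set.mem_Icc]
      have h3 := Int.le_ceil (5 * R)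
      constructor
      · have : (-(⌈5 * R⌉ : ℝ)) ≤ n := by rw [← hn]; linarith
        exact_mod_cast this
      · have : (n : ℝ) ≤ ⌈5 * R⌉ := by rw [← hn]; linarith
        exact_mod_cast this
    · intro v hv w hw hvw
      apply co_ext
      intro i k
      obtain ⟨n, hn⟩ := hv.2 i k
      obtain ⟨m, hm⟩ := hw.2 i k
      have h1 : ⌊5 * co v i k⌋ = ⌊5 * co w i k⌋ := congrFun (congrFun hvw i) k
      rw [hn, hm, Int.floor_intCast, Int.floor_intCast] at h1
      rw [h1, ← hm] at hn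
      linarith
  refine (((Set.finite_univ (α := G)).prod hS).image fun p => iso p.1 p.2).subset ?_
  rintro γ ⟨⟨g, v, h⟩, hR⟩
  refine ⟨(g, v), ⟨trivial, ?_, five_co h.1⟩, (eq_iso h).symm⟩
  rw [h.2, map_zero, zero_add] at hR
  exact hR

lemma cocompact : ∃ K : Set E, IsCompact K ∧ ∀ x, ∃ γ ∈ Gam, γ x ∈ K := by
  refine ⟨Metric.closedBall 0 100, isCompact_closedBall _ _, fun x => ?_⟩
  let n : Option (ZMod 5) → ZMod 5 → ℤ := fun i k =>
    if k = 0 then ∑ l ∈ {(0 : ZMod 5)}ᶜ, ⌊co x i l⌋ else -⌊co x i k⌋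
  have hn : ∀ i, ∑ k, (n i k : ℝ) = 0 := by
    intro i
    rw [Fintype.sum_eq_add_sum_compl (0 : ZMod 5)]
    have h1 : n i 0 = ∑ l ∈ {(0 : ZMod 5)}ᶜ, ⌊co x i l⌋ := if_pos rfl
    have h2 : ∀ k ∈ ({(0 : ZMod 5)}ᶜ : Finset (ZMod 5)), (n i k : ℝ) = -(⌊co x i k⌋ : ℝ) := by
      intro k hk
      have : k ≠ 0 := by simpa using hk
      have h3 : n i k = -⌊co x i k⌋ := if_neg this
      rw [h3]
      push_cast
      rfl
    rw [h1, Finset.sum_congr rfl h2, Finset.sum_neg_distrib]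
    push_cast
    ring
  let v : E := mk (fun i k => (n i k : ℝ)) hn
  have hv : Cong 0 v := by
    intro i k
    rw [psi_zero, Pi.zero_apply, map_zero, AddCircle.coe_eq_zero_iff]
    exact ⟨n i k, by simp [v]⟩
  refine ⟨iso 0 v, ⟨0, v, iso_mem hv⟩, ?_⟩
  rw [iso_apply, chi_zero, sh_zero, mem_closedBall_zero_iff]
  have hb : ∀ i k, |co (x + v) i k| ≤ 4 := by
    intro i k
    have e1 : co (x + v) i k = co x i k + n i k := rfl
    rw [e1]
    by_cases hk : k = 0
    · have h1 : n i k = ∑ l ∈ {(0 : ZMod 5)}ᶜ, ⌊co x i l⌋ := if_pos hk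
      have h2 := co_sum x i
      rw [Fintype.sum_eq_add_sum_compl (0 : ZMod 5)] at h2
      have h3 : ∑ l ∈ ({(0 : ZMod 5)}ᶜ : Finset (ZMod 5)), (co x i l - ⌊co x i l⌋) ≤
          ∑ l ∈ ({(0 : ZMod 5)}ᶜ : Finset (ZMod 5)), (1 : ℝ) :=
        Finset.sum_le_sum fun l _ => by linarith [Int.lt_floor_add_one (co x i l)]
      have h4 : 0 ≤ ∑ l ∈ ({(0 : ZMod 5)}ᶜ : Finset (ZMod 5)), (co x i l - ⌊co x i l⌋) :=
        Finset.sum_nonneg fun l _ => by linarith [Int.floor_le (co x i l)]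
      have h5 : ∑ l ∈ ({(0 : ZMod 5)}ᶜ : Finset (ZMod 5)), (1 : ℝ) = 4 := by
        have : ({(0 : ZMod 5)}ᶜ : Finset (ZMod 5)).card = 4 := by decide
        rw [Finset.sum_const, this]
        norm_num
      rw [Finset.sum_sub_distrib] at h3 h4
      rw [h1, hk, abs_le]
      push_cast
      constructor <;> linarith
    · have h1 : n i k = -⌊co x i k⌋ := if_neg hk
      rw [h1, abs_le]
      push_cast
      constructor <;> linarith [Int.lt_floor_add_one (co x i k), Int.floor_le (co x i k)]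
  have h6 : ‖x + v‖ ^ 2 ≤ 480 := by
    rw [norm_sq]
    calc ∑ i, ∑ k, co (x + v) i k ^ 2 ≤ ∑ _i : Option (ZMod 5), ∑ _k : ZMod 5, (16 : ℝ) := by
          refine Finset.sum_le_sum fun i _ => Finset.sum_le_sum fun k _ => ?_
          rw [← sq_abs]
          nlinarith [hb i k, abs_nonneg (co (x + v) i k)]
      _ = 480 := by
          simp only [Finset.sum_const, Finset.card_univ, Fintype.card_option, ZMod.card]
          norm_num
  nlinarith [norm_nonneg (x + v)]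

lemma pow_co {g : G} {v : E} {γ : E ≃ᵃⁱ[ℝ] E} (h : Mem g v γ) (n : ℕ) (i : Option (ZMod 5))
    (hi : chi g i = 0) (x : E) (k : ZMod 5) : co ((γ ^ n) x) i k = co x i k + n * co v i k := by
  induction n generalizing k with
  | zero => simp
  | succ n ih =>
    rw [pow_succ']
    show co (γ ((γ ^ n) x)) i k = _
    rw [h.2, co_add, co_sh, hi, sub_zero, ih]
    push_cast
    ring

lemma torsionFree (γ : E ≃ᵃⁱ[ℝ] E) (hγ : γ ∈ Gam) (n : ℕ) (hn : 0 < n) (h1 : γ ^ n = 1) : γ = 1 := by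
  obtain ⟨g, v, h⟩ := hγ
  have hn' : (n : ℝ) ≠ 0 := by positivity
  have key : ∀ i, chi g i = 0 → ∀ k, co v i k = 0 := by
    intro i hi k
    have h2 := pow_co h n i hi 0 k
    rw [h1] at h2
    have h3 : co ((1 : E ≃ᵃⁱ[ℝ] E) 0) i k = 0 := rfl
    rw [h3, co_zero, zero_add] at h2
    exact (mul_eq_zero.1 h2.symm).resolve_left hn'
  by_cases hg : g = 0
  · subst hg
    have hv : v = 0 := co_ext fun i k => key i (by rw [chi_zero]; rfl) k
    rw [eq_iso h, hv]
    exact (eq_iso mem_one).symm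
  · obtain ⟨i, hi, hp⟩ := exists_line g hg
    have h4 := h.1 i 0
    rw [key i hi 0, AddCircle.coe_zero] at h4
    exact absurd (ZMod.toAddCircle_eq_zero.1 h4.symm) hp

/-- The lattice. -/
def L : AddSubgroup E where
  carrier := {v | Cong 0 v}
  zero_mem' := fun i k => by simp [psi_zero]
  add_mem' := fun {v w} hv hw i k => by
    rw [co_add, AddCircle.coe_add, hv i k, hw i k, psi_zero]
    simp
  neg_mem' := fun {v} hv i k => by
    rw [co_neg, AddCircle.coe_neg, hv i k, psi_zero]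
    simp

/-- An admissible translation part. -/
noncomputable def sec (g : G) : E :=
  mk (fun i k => (psi g i).val * ((1 : ℝ) / 5 - if k = 0 then 1 else 0)) fun i => by
    rw [← Finset.mul_sum, Finset.sum_sub_distrib]
    simp

lemma cong_sec (g : G) : Cong g (sec g) := by
  intro i k
  have h1 : co (sec g) i k = (psi g i).val / (5 : ℕ) - ((if k = 0 then (psi g i).val else 0 : ℕ) : ℝ) := by
    show (psi g i).val * ((1 : ℝ) / 5 - if k = 0 then 1 else 0) = _
    split_ifs <;> push_cast <;> ring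
  rw [h1, AddCircle.coe_sub, ← ZMod.toAddCircle_apply]
  have h2 : (((if k = 0 then (psi g i).val else 0 : ℕ) : ℝ) : UnitAddCircle) = 0 := by
    rw [AddCircle.coe_eq_zero_iff]
    exact ⟨((if k = 0 then (psi g i).val else 0 : ℕ) : ℤ), by simp⟩
  rw [h2, sub_zero]

/-- The sum of a function of a character. -/
lemma sum_chi (i : Option (ZMod 5)) (F : ZMod 5 → ℝ) : ∑ g : G, F (chi g i) = 5 * ∑ t, F t := by
  rw [Fintype.sum_prod_type]
  cases i with
  | none => simp [chi]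
  | some t =>
    rw [Finset.sum_comm]
    have : ∀ b : ZMod 5, ∑ a : ZMod 5, F (chi (a, b) (some t)) = ∑ a, F a := fun b =>
      Fintype.sum_equiv (Equiv.addRight (t * b)) _ _ fun a => rfl
    simp [this]

lemma sum_sh (v : E) : ∑ g : G, sh (chi g) v = 0 := by
  apply co_ext
  intro i k
  have h1 : ∀ s : Finset G, co (∑ g ∈ s, sh (chi g) v) i k = ∑ g ∈ s, co v i (k - chi g i) := by
    intro s
    induction s using Finset.cons_induction with
    | empty => simp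
    | cons a s ha ih => rw [Finset.sum_cons, Finset.sum_cons, co_add, ih, co_sh]
  rw [h1, sum_chi i fun t => co v i (k - t), co_zero]
  have : ∑ t, co v i (k - t) = ∑ t, co v i t :=
    Fintype.sum_equiv (Equiv.subLeft k) _ _ fun a => rfl
  rw [this, co_sum, mul_zero]

lemma bettiOneZero : BettiOneZero Gam := by
  intro f
  let A : L →+ ℝ :=
    { toFun := fun v => Multiplicative.toAdd (f ⟨iso 0 v.1, 0, v.1, iso_mem v.2⟩)
      map_zero' := by
        have : (⟨iso 0 (0 : L).1, 0, (0 : L).1, iso_mem (0 : L).2⟩ : Gam) = 1 :=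
          Subtype.ext (eq_iso mem_one).symm
        rw [this, map_one]
        rfl
      map_add' := fun v w => by
        have : (⟨iso 0 (v + w).1, 0, (v + w).1, iso_mem (v + w).2⟩ : Gam) =
            ⟨iso 0 v.1, 0, v.1, iso_mem v.2⟩ * ⟨iso 0 w.1, 0, w.1, iso_mem w.2⟩ := by
          apply Subtype.ext
          ext1 x
          show iso 0 (v.1 + w.1) x = iso 0 v.1 (iso 0 w.1 x)
          simp only [iso_apply, chi_zero, sh_zero]
          abel
        rw [this, map_mul]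
        rfl }
  have hL : ∀ (g : G) (v : L), sh (chi g) v.1 ∈ L := fun g v i k => v.2 i (k - chi g i)
  have hA1 : ∀ (g : G) (v : L), A ⟨sh (chi g) v.1, hL g v⟩ = A v := by
    intro g v
    have h2 : (⟨iso g (sec g), g, sec g, iso_mem (cong_sec g)⟩ : Gam) *
        ⟨iso 0 v.1, 0, v.1, iso_mem v.2⟩ =
        ⟨iso 0 (sh (chi g) v.1), 0, _, iso_mem (hL g v)⟩ *
          ⟨iso g (sec g), g, sec g, iso_mem (cong_sec g)⟩ := by
      apply Subtype.ext
      ext1 x
      show iso g (sec g) (iso 0 v.1 x) = iso 0 (sh (chi g) v.1) (iso g (sec g) x)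
      simp only [iso_apply, chi_zero, sh_zero, map_add]
      abel
    have h3 := congrArg f h2
    rw [map_mul, map_mul, mul_comm] at h3
    exact (mul_right_cancel h3).symm ▸ rfl
  have hA : ∀ v : L, A v = 0 := by
    intro v
    have h4 : ∑ g : G, (⟨sh (chi g) v.1, hL g v⟩ : L) = 0 := by
      apply Subtype.ext
      rw [AddSubgroup.val_finsetSum]
      exact sum_sh v.1
    have h5 := congrArg A h4
    rw [map_sum, map_zero, Finset.sum_congr rfl fun g _ => hA1 g v, Finset.sum_const] at h5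
    have h6 : (Finset.univ : Finset G).card = 25 := by
      rw [Finset.card_univ, Fintype.card_prod, ZMod.card]
    rw [h6] at h5
    simpa using h5
  ext ⟨γ, g, v, h⟩
  have hpow : ∀ n : ℕ, ∃ w, Mem (n • g) w (γ ^ n) := by
    intro n
    induction n with
    | zero => exact ⟨0, by rw [zero_smul, pow_zero]; exact mem_one⟩
    | succ n ih =>
      obtain ⟨w, hw⟩ := ih
      rw [succ_nsmul, pow_succ]
      exact ⟨_, mem_mul hw h⟩
  obtain ⟨w, hw⟩ := hpow 5
  have h5g : (5 : ℕ) • g = 0 := by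
    have : ∀ g : G, (5 : ℕ) • g = 0 := by decide
    exact this g
  rw [h5g] at hw
  have h7 : (⟨γ, g, v, h⟩ : Gam) ^ 5 = ⟨iso 0 w, 0, w, iso_mem hw.1⟩ := by
    apply Subtype.ext
    exact eq_iso hw
  have h8 := congrArg f h7
  rw [map_pow] at h8
  have h9 : Multiplicative.toAdd (f ⟨iso 0 w, 0, w, iso_mem hw.1⟩) = 0 := hA ⟨w, hw.1⟩
  have h10 := congrArg Multiplicative.toAdd h8
  rw [h9, toAdd_pow] at h10
  have h11 : Multiplicative.toAdd (f ⟨γ, g, v, h⟩) = 0 := by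
    simpa using h10
  exact h11


/-- The simultaneous shift by `m`. -/
def sg (m : ZMod 5) : E →ₗ[ℝ] E := sh fun _ => m

@[simp] lemma co_sg (m : ZMod 5) (x : E) (i : Option (ZMod 5)) (k : ZMod 5) :
    co (sg m x) i k = co x i (k - m) := rfl

lemma sg_sg (m n : ZMod 5) (x : E) : sg m (sg n x) = sg (m + n) x := sh_sh _ _ x

lemma sg_sh (m : ZMod 5) (d : Option (ZMod 5) → ZMod 5) (x : E) : sg m (sh d x) = sh d (sg m x) := by
  show sh _ (sh d x) = sh d (sh _ x)
  rw [sh_sh, sh_sh, add_comm]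

lemma lin_apply {g : G} {v : E} {γ : E ≃ᵃⁱ[ℝ] E} (h : Mem g v γ) (u : E) :
    γ.linearIsometryEquiv u = sh (chi g) u := by
  have h1 := γ.map_vsub u 0
  simp only [vsub_eq_sub, sub_zero] at h1
  rw [h1, h.2, h.2, map_zero]
  abel

/-- If `J` commutes with the holonomy group then it commutes with the shifts. -/
lemma comm_sg {J : E →ₗ[ℝ] E} (hJ : ∀ γ ∈ Gam, ∀ v, J (γ.linearIsometryEquiv v) =
    γ.linearIsometryEquiv (J v)) (x : E) : J (sg 1 x) = sg 1 (J x) := by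
  have h1 : ∀ (g : G) (v : E), J (sh (chi g) v) = sh (chi g) (J v) := by
    intro g v
    have hm := iso_mem (cong_sec g)
    have := hJ _ ⟨g, sec g, hm⟩ v
    rwa [lin_apply hm, lin_apply hm] at this
  let N : G → ℕ := fun g => (Finset.univ.filter fun i => chi g i = 1).card
  have h2 : ∀ y : E, (5 : ℝ) • sg 1 y = ∑ g : G, (N g : ℝ) • sh (chi g) y := by
    intro y
    apply co_ext
    intro j k
    have h3 : ∀ s : Finset G, co (∑ g ∈ s, (N g : ℝ) • sh (chi g) y) j k =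
        ∑ g ∈ s, (N g : ℝ) * co y j (k - chi g j) := by
      intro s
      induction s using Finset.cons_induction with
      | empty => simp
      | cons a s ha ih => rw [Finset.sum_cons, Finset.sum_cons, co_add, ih, co_smul, co_sh]
    have h4 : ∀ (j : Option (ZMod 5)) (t : ZMod 5),
        ∑ g ∈ Finset.univ.filter (fun g : G => chi g j = t), N g = 5 + if t = 1 then 5 else 0 := by
      decide
    rw [h3, ← Finset.sum_fiberwise (g := fun g : G => chi g j)]
    have h5 : ∀ t : ZMod 5, ∑ g ∈ Finset.univ.filter (fun g : G => chi g j = t),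
        (N g : ℝ) * co y j (k - chi g j) = ((5 : ℝ) + if t = 1 then 5 else 0) * co y j (k - t) := by
      intro t
      have h6 : ∀ g ∈ Finset.univ.filter (fun g : G => chi g j = t),
          (N g : ℝ) * co y j (k - chi g j) = (N g : ℝ) * co y j (k - t) := by
        intro g hg
        rw [(Finset.mem_filter.1 hg).2]
      rw [Finset.sum_congr rfl h6, ← Finset.sum_mul, ← Nat.cast_sum, h4 j t]
      split_ifs <;> norm_num
    rw [Finset.sum_congr rfl fun t _ => h5 t]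
    simp only [add_mul, Finset.sum_add_distrib, ← Finset.mul_sum]
    have h7 : ∑ t, co y j (k - t) = 0 := by
      rw [← co_sum y j]
      exact Fintype.sum_equiv (Equiv.subLeft k) _ _ fun a => rfl
    rw [h7]
    simp
  have h8 : (5 : ℝ) • J (sg 1 x) = (5 : ℝ) • sg 1 (J x) := by
    rw [← map_smul, h2, h2, map_sum]
    refine Finset.sum_congr rfl fun g _ => ?_
    rw [map_smul, h1]
  exact smul_right_injective E (by norm_num : (5 : ℝ) ≠ 0) h8

lemma comm_sg' {J : E →ₗ[ℝ] E} (hJ : ∀ γ ∈ Gam, ∀ v, J (γ.linearIsometryEquiv v) =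
    γ.linearIsometryEquiv (J v)) (m : ZMod 5) (x : E) : J (sg m x) = sg m (J x) := by
  have h : ∀ (n : ℕ) (x : E), J (sg (n : ZMod 5) x) = sg (n : ZMod 5) (J x) := by
    intro n
    induction n with
    | zero =>
      intro x
      have : ∀ y : E, sg ((0 : ℕ) : ZMod 5) y = y := fun y => by
        apply co_ext
        intro i k
        simp
      rw [this, this]
    | succ n ih =>
      intro x
      rw [Nat.cast_succ, ← sg_sg, ih, comm_sg hJ, sg_sg]
  have := h m.val x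
  rwa [ZMod.natCast_zmod_val] at this

/-- The operator `(2 + σ^p + σ^(-p))²`. -/
def Up (p : ZMod 5) : E →ₗ[ℝ] E :=
  (6 : ℝ) • LinearMap.id + (4 : ℝ) • (sg p + sg (-p)) + (sg (2 * p) + sg (-(2 * p)))

lemma Up_apply (p : ZMod 5) (x : E) :
    Up p x = (6 : ℝ) • x + (4 : ℝ) • (sg p x + sg (-p) x) + (sg (2 * p) x + sg (-(2 * p)) x) := rfl

lemma co_Up (p : ZMod 5) (x : E) (i : Option (ZMod 5)) (k : ZMod 5) :
    co (Up p x) i k = 6 * co x i k + 4 * (co x i (k - p) + co x i (k + p)) +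
      (co x i (k - 2 * p) + co x i (k + 2 * p)) := by
  rw [Up_apply]
  simp only [co_add, co_smul, co_sg, sub_neg_eq_add]

lemma sum_five (x : E) (i : Option (ZMod 5)) (k : ZMod 5) :
    co x i k + co x i (k + 1) + co x i (k + 2) + co x i (k + 3) + co x i (k + 4) = 0 := by
  have h1 : ∑ t, co x i (k + t) = 0 := by
    rw [← co_sum x i]
    exact Fintype.sum_equiv (Equiv.addLeft k) _ _ fun a => rfl
  have h2 : ∑ t : ZMod 5, co x i (k + t) = co x i (k + 0) + co x i (k + 1) + co x i (k + 2) +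
      co x i (k + 3) + co x i (k + 4) := Fin.sum_univ_five _
  rw [h1, add_zero] at h2
  exact h2.symm

lemma Up_one (x : E) (i : Option (ZMod 5)) (k : ZMod 5) :
    co (Up 1 x) i k = 6 * co x i k + 4 * (co x i (k + 4) + co x i (k + 1)) +
      (co x i (k + 3) + co x i (k + 2)) := by
  rw [co_Up]
  have e1 : k - 1 = k + 4 := by rw [sub_eq_add_neg]; congr 1
  have e2 : k - 2 * 1 = k + 3 := by rw [sub_eq_add_neg]; congr 1
  have e3 : k + 2 * 1 = k + 2 := by congr 1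
  rw [e1, e2, e3]

lemma Up_two (x : E) (i : Option (ZMod 5)) (k : ZMod 5) :
    co (Up 2 x) i k = 6 * co x i k + 4 * (co x i (k + 3) + co x i (k + 2)) +
      (co x i (k + 1) + co x i (k + 4)) := by
  rw [co_Up]
  have e1 : k - 2 = k + 3 := by rw [sub_eq_add_neg]; congr 1
  have e2 : k - 2 * 2 = k + 1 := by rw [sub_eq_add_neg]; congr 1
  have e3 : k + 2 * 2 = k + 4 := by congr 1
  rw [e1, e2, e3]

lemma Up_Up (x : E) : Up 1 (Up 2 x) = x := by
  apply co_ext
  intro i k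
  rw [Up_one, Up_two, Up_two, Up_two, Up_two, Up_two]
  have a1 : ∀ m n : ZMod 5, k + m + n = k + (m + n) := fun m n => add_assoc _ _ _
  simp only [a1]
  have e : (1 + 1 : ZMod 5) = 2 ∧ (1 + 2 : ZMod 5) = 3 ∧ (1 + 3 : ZMod 5) = 4 ∧ (1 + 4 : ZMod 5) = 0 ∧
    (2 + 1 : ZMod 5) = 3 ∧ (2 + 2 : ZMod 5) = 4 ∧ (2 + 3 : ZMod 5) = 0 ∧ (2 + 4 : ZMod 5) = 1 ∧
    (3 + 1 : ZMod 5) = 4 ∧ (3 + 2 : ZMod 5) = 0 ∧ (3 + 3 : ZMod 5) = 1 ∧ (3 + 4 : ZMod 5) = 2 ∧
    (4 + 1 : ZMod 5) = 0 ∧ (4 + 2 : ZMod 5) = 1 ∧ (4 + 3 : ZMod 5) = 2 ∧ (4 + 4 : ZMod 5) = 3 := by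
    decide
  obtain ⟨e1, e2, e3, e4, e5, e6, e7, e8, e9, e10, e11, e12, e13, e14, e15, e16⟩ := e
  simp only [e1, e2, e3, e4, e5, e6, e7, e8, e9, e10, e11, e12, e13, e14, e15, e16, add_zero]
  linear_combination 51 * sum_five x i k


lemma Up_sh (p : ZMod 5) (d : Option (ZMod 5) → ZMod 5) (x : E) : Up p (sh d x) = sh d (Up p x) := by
  rw [Up_apply, Up_apply]
  simp only [sg_sh, map_add, map_smul]

lemma Up_sg (p m : ZMod 5) (x : E) : Up p (sg m x) = sg m (Up p x) := Up_sh p _ x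

lemma Up_comm (x : E) : Up 2 (Up 1 x) = Up 1 (Up 2 x) := by
  rw [Up_apply 1 (Up 2 x), Up_apply 1 x]
  simp only [map_add, map_smul, Up_sg]

lemma Up_Up' (x : E) : Up 2 (Up 1 x) = x := by rw [Up_comm, Up_Up]

lemma Cong_Up (p : ZMod 5) {g : G} {v : E} (h : Cong g v) : Cong g (Up p v) := by
  intro i k
  have e : co (Up p v) i k = (6 : ℕ) • co v i k + (4 : ℕ) • (co v i (k - p) + co v i (k + p)) +
      (co v i (k - 2 * p) + co v i (k + 2 * p)) := by
    rw [co_Up]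
    simp only [nsmul_eq_mul]
    push_cast
    ring
  rw [e]
  simp only [AddCircle.coe_add, AddCircle.coe_nsmul, h i, ← map_nsmul, ← map_add]
  congr 1
  generalize psi g i = t
  revert t
  decide

lemma Up_orbit (p : ZMod 5) {x y : E} (h : (orbitSetoid Gam).r x y) :
    (orbitSetoid Gam).r (Up p x) (Up p y) := by
  obtain ⟨γ, ⟨g, v, hm⟩, h1⟩ := h
  have hc := Cong_Up p hm.1
  refine ⟨iso g (Up p v), ⟨g, _, iso_mem hc⟩, ?_⟩
  rw [iso_apply, ← h1, hm.2, map_add, Up_sh]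

/-- The self-map of the flat manifold induced by `(2 + σ + σ⁻¹)²`. -/
noncomputable def Phi : Equiv.Perm (Manifold Gam) where
  toFun := Quotient.map (sa := orbitSetoid Gam) (sb := orbitSetoid Gam) (Up 1)
    fun _ _ h => Up_orbit 1 h
  invFun := Quotient.map (sa := orbitSetoid Gam) (sb := orbitSetoid Gam) (Up 2)
    fun _ _ h => Up_orbit 2 h
  left_inv := by
    rintro ⟨x⟩
    show proj Gam (Up 2 (Up 1 x)) = proj Gam x
    rw [Up_Up']
  right_inv := by
    rintro ⟨x⟩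
    show proj Gam (Up 1 (Up 2 x)) = proj Gam x
    rw [Up_Up]

lemma Phi_proj (x : E) : Phi (proj Gam x) = proj Gam (Up 1 x) := rfl

lemma Phi_pow_proj (n : ℕ) (x : E) : (Phi ^ n) (proj Gam x) = proj Gam ((Up 1 ^ n) x) := by
  induction n generalizing x with
  | zero => rfl
  | succ n ih =>
    rw [pow_succ, pow_succ]
    show (Phi ^ n) (Phi (proj Gam x)) = proj Gam ((Up 1 ^ n) (Up 1 x))
    rw [Phi_proj, ih]

/-- `Up 1` as a linear equivalence. -/
noncomputable def UpE : E ≃ₗ[ℝ] E := LinearEquiv.ofLinearMap (Up 1) (Up 2) (by ext1 x; exact Up_Up x)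
  (by ext1 x; exact Up_Up' x)

lemma UpE_pow (n : ℕ) (x : E) : (UpE ^ n) x = (Up 1 ^ n) x := by
  induction n generalizing x with
  | zero => rfl
  | succ n ih =>
    rw [pow_succ, pow_succ]
    show (UpE ^ n) (UpE x) = (Up 1 ^ n) (Up 1 x)
    rw [ih]
    rfl

lemma comm_Up {J : E →ₗ[ℝ] E} (hJ : IsComplexStructure Gam J) (x : E) : Up 1 (J x) = J (Up 1 x) := by
  rw [Up_apply, Up_apply]
  simp only [map_add, map_smul, comm_sg' hJ.comm]

lemma comm_Up_pow {J : E →ₗ[ℝ] E} (hJ : IsComplexStructure Gam J) (n : ℕ) (x : E) :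
    (Up 1 ^ n) (J x) = J ((Up 1 ^ n) x) := by
  induction n generalizing x with
  | zero => rfl
  | succ n ih =>
    rw [pow_succ]
    show (Up 1 ^ n) (Up 1 (J x)) = J ((Up 1 ^ n) (Up 1 x))
    rw [comm_Up hJ, ih]

lemma Phi_pow_mem {J : E →ₗ[ℝ] E} (hJ : IsComplexStructure Gam J) (n : ℕ) : Phi ^ n ∈ Aut Gam J := by
  refine ⟨(UpE ^ n).toAffineEquiv, fun x => ?_, fun v => ?_⟩
  · rw [Phi_pow_proj]
    show _ = proj Gam ((UpE ^ n) x)
    rw [UpE_pow]
  · show (UpE ^ n) (J v) = J ((UpE ^ n) v)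
    rw [UpE_pow, UpE_pow, comm_Up_pow hJ]

section eigen

/-- The coordinates of the eigenvector. -/
noncomputable def ev (θ : ℝ) : ZMod 5 → ℝ := ![1, θ / 2, -(1 + θ) / 2, -(1 + θ) / 2, θ / 2]

/-- The eigenvector. -/
noncomputable def evec (θ : ℝ) : E := mk (fun _ k => ev θ k) fun _ => by
  have : ∑ k : ZMod 5, ev θ k = 1 + θ / 2 + -(1 + θ) / 2 + -(1 + θ) / 2 + θ / 2 :=
    Fin.sum_univ_five _
  rw [this]
  ring

lemma Up_evec {θ : ℝ} (hθ : θ ^ 2 = 1 - θ) : Up 1 (evec θ) = (2 + θ) ^ 2 • evec θ := by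
  apply co_ext
  intro i k
  rw [Up_one, co_smul]
  have e : ∀ k : ZMod 5, 6 * ev θ k + 4 * (ev θ (k + 4) + ev θ (k + 1)) + (ev θ (k + 3) + ev θ (k + 2)) =
      (2 + θ) ^ 2 * ev θ k := by
    intro k
    have h5 : k = 0 ∨ k = 1 ∨ k = 2 ∨ k = 3 ∨ k = 4 := by revert k; decide
    have v0 : ev θ 0 = 1 := rfl
    have v1 : ev θ 1 = θ / 2 := rfl
    have v2 : ev θ 2 = -(1 + θ) / 2 := rfl
    have v3 : ev θ 3 = -(1 + θ) / 2 := rfl
    have v4 : ev θ 4 = θ / 2 := rfl
    rcases h5 with rfl | rfl | rfl | rfl | rfl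
    · have : (0 + 4 : ZMod 5) = 4 ∧ (0 + 1 : ZMod 5) = 1 ∧ (0 + 3 : ZMod 5) = 3 ∧
        (0 + 2 : ZMod 5) = 2 := by decide
      obtain ⟨a1, a2, a3, a4⟩ := this
      rw [a1, a2, a3, a4, v0, v1, v2, v3, v4]
      linear_combination -hθ
    · have : (1 + 4 : ZMod 5) = 0 ∧ (1 + 1 : ZMod 5) = 2 ∧ (1 + 3 : ZMod 5) = 4 ∧
        (1 + 2 : ZMod 5) = 3 := by decide
      obtain ⟨a1, a2, a3, a4⟩ := this
      rw [a1, a2, a3, a4, v0, v1, v2, v3, v4]
      linear_combination (-(θ / 2) - 3 / 2) * hθ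
    · have : (2 + 4 : ZMod 5) = 1 ∧ (2 + 1 : ZMod 5) = 3 ∧ (2 + 3 : ZMod 5) = 0 ∧
        (2 + 2 : ZMod 5) = 4 := by decide
      obtain ⟨a1, a2, a3, a4⟩ := this
      rw [a1, a2, a3, a4, v0, v1, v2, v3, v4]
      linear_combination ((θ / 2) + 2) * hθ
    · have : (3 + 4 : ZMod 5) = 2 ∧ (3 + 1 : ZMod 5) = 4 ∧ (3 + 3 : ZMod 5) = 1 ∧
        (3 + 2 : ZMod 5) = 0 := by decide
      obtain ⟨a1, a2, a3, a4⟩ := this
      rw [a1, a2, a3, a4, v0, v1, v2, v3, v4]
      linear_combination ((θ / 2) + 2) * hθ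
    · have : (4 + 4 : ZMod 5) = 3 ∧ (4 + 1 : ZMod 5) = 0 ∧ (4 + 3 : ZMod 5) = 2 ∧
        (4 + 2 : ZMod 5) = 1 := by decide
      obtain ⟨a1, a2, a3, a4⟩ := this
      rw [a1, a2, a3, a4, v0, v1, v2, v3, v4]
      linear_combination (-(θ / 2) - 3 / 2) * hθ
  exact e k

lemma ev_le {θ : ℝ} (h0 : 0 < θ) (h1 : θ < 1) (k : ZMod 5) : -1 ≤ ev θ k ∧ ev θ k ≤ 1 := by
  have h5 : k = 0 ∨ k = 1 ∨ k = 2 ∨ k = 3 ∨ k = 4 := by revert k; decide
  have v0 : ev θ 0 = 1 := rfl
  have v1 : ev θ 1 = θ / 2 := rfl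
  have v2 : ev θ 2 = -(1 + θ) / 2 := rfl
  have v3 : ev θ 3 = -(1 + θ) / 2 := rfl
  have v4 : ev θ 4 = θ / 2 := rfl
  rcases h5 with rfl | rfl | rfl | rfl | rfl
  · rw [v0]; norm_num
  · rw [v1]; constructor <;> linarith
  · rw [v2]; constructor <;> linarith
  · rw [v3]; constructor <;> linarith
  · rw [v4]; constructor <;> linarith

lemma Up_pow_evec {θ : ℝ} (hθ : θ ^ 2 = 1 - θ) (n : ℕ) (s : ℝ) :
    (Up 1 ^ n) (s • evec θ) = (((2 + θ) ^ 2) ^ n * s) • evec θ := by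
  induction n generalizing s with
  | zero => simp
  | succ n ih =>
    rw [pow_succ]
    show (Up 1 ^ n) (Up 1 (s • evec θ)) = _
    rw [map_smul, Up_evec hθ, smul_smul, ih]
    congr 1
    ring

lemma Phi_pow_ne (n : ℕ) (hn : 0 < n) : Phi ^ n ≠ 1 := by
  intro h
  obtain ⟨θ, h0, h1, hθ⟩ : ∃ θ : ℝ, 0 < θ ∧ θ < 1 ∧ θ ^ 2 = 1 - θ := by
    refine ⟨(√5 - 1) / 2, ?_, ?_, ?_⟩
    · have : (1 : ℝ) < √5 := by rw [Real.lt_sqrt] <;> norm_num
      linarith
    · have : √5 < 3 := by rw [Real.sqrt_lt'] <;> norm_num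
      linarith
    · have := Real.sq_sqrt (show (0 : ℝ) ≤ 5 by norm_num)
      nlinarith
  set M : ℝ := ((2 + θ) ^ 2) ^ n with hM
  have hM1 : 1 < M := one_lt_pow₀ (by nlinarith) hn.ne'
  set s : ℝ := 1 / (5 * (M + 2)) with hs
  have hs0 : 0 < s := by positivity
  have h2 := congrArg (fun f : Equiv.Perm (Manifold Gam) => f (proj Gam (s • evec θ))) h
  simp only [Phi_pow_proj, Up_pow_evec hθ] at h2
  have h3 : proj Gam (s • evec θ) = proj Gam ((M * s) • evec θ) := h2.symm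
  obtain ⟨γ, ⟨g, v, hm⟩, h4⟩ := Quotient.exact h3
  have h5 : co (γ (s • evec θ)) none 0 = co ((M * s) • evec θ) none 0 := by rw [h4]
  rw [hm.2, co_add, co_sh, co_smul, co_smul] at h5
  have h6 : co (evec θ) none 0 = 1 := rfl
  have h7 : co (evec θ) none (0 - chi g none) = ev θ (0 - chi g none) := rfl
  rw [h6, h7] at h5
  obtain ⟨m, hm5⟩ := five_co hm.1 none 0
  obtain ⟨b1, b2⟩ := ev_le h0 h1 (0 - chi g none)
  have h8 : co v none 0 = s * (M - ev θ (0 - chi g none)) := by linarith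
  have h9 : 0 < 5 * co v none 0 := by
    rw [h8]
    have : 0 < M - ev θ (0 - chi g none) := by linarith
    positivity
  have h10 : 5 * co v none 0 < 1 := by
    rw [h8]
    have h11 : s * (M - ev θ (0 - chi g none)) ≤ s * (M + 1) :=
      mul_le_mul_of_nonneg_left (by linarith) hs0.le
    have h12 : 5 * (s * (M + 1)) < 1 := by
      rw [hs]
      have : 5 * (1 / (5 * (M + 2)) * (M + 1)) = (M + 1) / (M + 2) := by field_simp
      rw [this, div_lt_one (by linarith)]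
      linarith
    linarith
  rw [hm5] at h9 h10
  have h13 : 0 < m := by exact_mod_cast h9
  have h14 : m < 1 := by exact_mod_cast h10
  omega

end eigen

lemma infinite_aut {J : E →ₗ[ℝ] E} (hJ : IsComplexStructure Gam J) : (Aut Gam J).Infinite := by
  have hinj : Function.Injective fun n : ℕ => Phi ^ n := by
    intro m n hmn
    by_contra hne
    rcases lt_or_gt_of_ne hne with h | h
    · have h1 : Phi ^ (n - m) = 1 := by
        have h2 : Phi ^ n = Phi ^ (n - m) * Phi ^ m := by rw [← pow_add]; congr 1; omega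
        have h3 : Phi ^ m = Phi ^ n := hmn
        rw [h2] at h3
        exact (mul_eq_right.1 h3.symm)
      exact Phi_pow_ne _ (by omega) h1
    · have h1 : Phi ^ (m - n) = 1 := by
        have h2 : Phi ^ m = Phi ^ (m - n) * Phi ^ n := by rw [← pow_add]; congr 1; omega
        have h3 : Phi ^ m = Phi ^ n := hmn
        rw [h2] at h3
        exact (mul_eq_right.1 h3)
      exact Phi_pow_ne _ (by omega) h1
  exact Set.infinite_of_injective_forall_mem hinj fun n => Phi_pow_mem hJ n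

/-- An explicit complex structure. -/
def J0 (a b : ℝ) : E →ₗ[ℝ] E := a • (sg 1 - sg 4) + b • (sg 2 - sg 3)

lemma J0_apply (a b : ℝ) (x : E) : J0 a b x = a • (sg 1 x - sg 4 x) + b • (sg 2 x - sg 3 x) := rfl

lemma co_J0 (a b : ℝ) (x : E) (i : Option (ZMod 5)) (k : ZMod 5) :
    co (J0 a b x) i k = a * (co x i (k + 4) - co x i (k + 1)) +
      b * (co x i (k + 3) - co x i (k + 2)) := by
  rw [J0_apply]
  simp only [co_add, co_smul, co_sub, co_sg]
  have e1 : k - 1 = k + 4 := by rw [sub_eq_add_neg]; congr 1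
  have e2 : k - 2 = k + 3 := by rw [sub_eq_add_neg]; congr 1
  have e3 : k - 3 = k + 2 := by rw [sub_eq_add_neg]; congr 1
  have e4 : k - 4 = k + 1 := by rw [sub_eq_add_neg]; congr 1
  rw [e1, e2, e3, e4]

lemma J0_J0 {a b : ℝ} (h1 : a ^ 2 + 4 * a * b - b ^ 2 = 0) (h2 : 3 * a ^ 2 + 2 * a * b + 2 * b ^ 2 = 1)
    (x : E) : J0 a b (J0 a b x) = -x := by
  apply co_ext
  intro i k
  simp only [co_neg, co_J0]
  have a1 : ∀ m n : ZMod 5, k + m + n = k + (m + n) := fun m n => add_assoc _ _ _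
  simp only [a1]
  have e : (1 + 1 : ZMod 5) = 2 ∧ (1 + 2 : ZMod 5) = 3 ∧ (1 + 3 : ZMod 5) = 4 ∧ (1 + 4 : ZMod 5) = 0 ∧
    (2 + 1 : ZMod 5) = 3 ∧ (2 + 2 : ZMod 5) = 4 ∧ (2 + 3 : ZMod 5) = 0 ∧ (2 + 4 : ZMod 5) = 1 ∧
    (3 + 1 : ZMod 5) = 4 ∧ (3 + 2 : ZMod 5) = 0 ∧ (3 + 3 : ZMod 5) = 1 ∧ (3 + 4 : ZMod 5) = 2 ∧
    (4 + 1 : ZMod 5) = 0 ∧ (4 + 2 : ZMod 5) = 1 ∧ (4 + 3 : ZMod 5) = 2 ∧ (4 + 4 : ZMod 5) = 3 := by
    decide
  obtain ⟨e1, e2, e3, e4, e5, e6, e7, e8, e9, e10, e11, e12, e13, e14, e15, e16⟩ := e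
  simp only [e1, e2, e3, e4, e5, e6, e7, e8, e9, e10, e11, e12, e13, e14, e15, e16, add_zero]
  have h5 := sum_five x i k
  have h0 : co x i k = -(co x i (k + 1) + co x i (k + 2) + co x i (k + 3) + co x i (k + 4)) := by
    linarith
  rw [h0]
  linear_combination (co x i (k + 1) + co x i (k + 2) + co x i (k + 3) + co x i (k + 4)) * h2 -
    (co x i (k + 1) + co x i (k + 4)) * h1

lemma exists_J : ∃ J : E →ₗ[ℝ] E, IsComplexStructure Gam J := by
  obtain ⟨a, b, h1, h2⟩ : ∃ a b : ℝ, a ^ 2 + 4 * a * b - b ^ 2 = 0 ∧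
      3 * a ^ 2 + 2 * a * b + 2 * b ^ 2 = 1 := by
    have h5 := Real.sq_sqrt (show (0 : ℝ) ≤ 5 by norm_num)
    have h6 : √5 < 5 / 2 := by rw [Real.sqrt_lt'] <;> norm_num
    have h7 : 0 < 25 - 10 * √5 := by linarith
    have h8 : (1 / √(25 - 10 * √5)) ^ 2 * (25 - 10 * √5) = 1 := by
      rw [div_pow, Real.sq_sqrt h7.le]
      field_simp
    set b := 1 / √(25 - 10 * √5) with hb
    refine ⟨(√5 - 2) * b, b, ?_, ?_⟩
    · linear_combination b ^ 2 * h5
    · linear_combination h8 + 3 * b ^ 2 * h5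
  refine ⟨J0 a b, J0_J0 h1 h2, ?_⟩
  rintro γ ⟨g, v, hm⟩ u
  rw [lin_apply hm, lin_apply hm, J0_apply, J0_apply]
  simp only [sg_sh, map_add, map_sub, map_smul]

/-- There is a flat manifold `M` with `b₁(M) = 0` which admits a complex structure and whose
automorphism group `Aut(M, J)` is infinite for every complex structure `J`. -/
theorem result : ∃ (E : Type) (_ : NormedAddCommGroup E) (_ : InnerProductSpace ℝ E)
    (_ : FiniteDimensional ℝ E) (Γ : Subgroup (E ≃ᵃⁱ[ℝ] E)),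
    IsBieberbach Γ ∧ BettiOneZero Γ ∧ (∃ J : E →ₗ[ℝ] E, IsComplexStructure Γ J) ∧
      ∀ J : E →ₗ[ℝ] E, IsComplexStructure Γ J → (Aut Γ J).Infinite :=
  ⟨E0, inferInstance, inferInstance, inferInstance, Gam, ⟨discrete, cocompact, torsionFree⟩,
    bettiOneZero, exists_J, fun _ hJ => infinite_aut hJ⟩

end Pool.Agent.Results.MP_bb2d27_ag.InfiniteAut
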